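import Pool.Agent.J6H54.CG.Stm

/-!
# Module CG-23 of project CG: the classes of exponent `0` have a bounded contribution
-/

set_option autoImplicit false

namespace Pool.Agent.J6H98.CG23

open Pool.Agent.J6H54.CG Finset

variable {k : ℕ} {T : Finset Pt} {R : ℕ}

/-- the number with the digits `1` exactly at the places in `J` -/
def kJ (k : ℕ) (J : Finset ℕ) : ℕ := ∑ i ∈ J, k ^ i

theorem kJ_lt (hk : 2 ≤ k) {H : ℕ} {J : Finset ℕ} (hJ : J ⊆ range H) : kJ k J < k ^ H :=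
  Nat.geomSum_lt hk (fun i hi => Finset.mem_range.1 (hJ hi))

theorem kJ_inj (hk : 2 ≤ k) {J J' : Finset ℕ} (h : kJ k J = kJ k J') : J = J' :=
  Finset.geomSum_injective hk h

theorem len_kJ (h21 : S_insert) (hT : Gen k T) (hB : Bd k T R) (H : ℕ) (v : ℚ) (hv : KA k v)
    (J : Finset ℕ) : J ⊆ range H →
    len k T (v + (kJ k J : ℚ), (H : ℤ)) ≤ len k T (v, (H : ℤ)) + (2 * R * R + R) * J.card := by
  induction J using Finset.induction_on with
  | empty => intro _; simp [kJ]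
  | @insert i J hi ih =>
    intro hJ
    have hJ' : J ⊆ range H := fun j hj => hJ (Finset.mem_insert_of_mem hj)
    have hiH : i ≤ H := (Finset.mem_range.1 (hJ (Finset.mem_insert_self i J))).le
    have h1 := ih hJ'
    have h2 := h21 k T R hT hB i H (v + (kJ k J : ℚ)) hiH (ka_add hT.two_le hv (ka_nat _))
    have h3 : v + (kJ k (insert i J) : ℚ) = v + (kJ k J : ℚ) + (k : ℚ) ^ i := by
      unfold kJ
      rw [Finset.sum_insert hi]
      push_cast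
      ring
    rw [h3, Finset.card_insert_of_notMem hi]
    have h4 : (2 * R * R + R) * (J.card + 1) = (2 * R * R + R) * J.card + (2 * R * R + R) := by
      ring
    rw [h4]
    omega

theorem cj_shift (k : ℕ) (x : ℚ) (m : ℤ) : Cj k (x, 0) ((k : ℚ) ^ m * x, 0) := by
  refine ⟨(0, m), ka_zero, ?_⟩
  simp [mul]

theorem A_le_one (R K C : ℕ) (ρ : ℝ) (hR : 1 ≤ R) (hr : Rad k T R K C ρ) (z : ℝ)
    (hz0 : 0 < z) (hz : z ≤ ρ) (h : ℕ) : A k T h z ≤ 1 := by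
  have hρ := hr.pos
  have h0 : 0 < z / ρ := div_pos hz0 hρ
  have h1 : z / ρ ≤ 1 := (div_le_one hρ).2 hz
  set q : ℝ := (z / ρ) ^ ((R : ℝ)⁻¹) with hq
  have hq0 : 0 < q := Real.rpow_pos_of_pos h0 _
  have hq1 : q ≤ 1 := Real.rpow_le_one h0.le h1 (by positivity)
  have hqR : q ^ R = z / ρ := Real.rpow_inv_natCast_pow h0.le (by omega)
  have h2 := hr.le q hq0 hq1 h
  have h3 : ρ * q ^ R = z := by rw [hqR]; field_simp
  rw [h3] at h2
  exact h2.trans (pow_le_one₀ hq0.le hq1)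

/-- the contribution of the classes with a fixed peak -/
theorem peak_sum (h21 : S_insert) (h24 : S_class0) (hT : Gen k T) (hB : Bd k T R) (P : ℕ)
    (C0 z : ℝ) (hz0 : 0 < z) (hz1 : z ≤ 1) (H : ℕ)
    (hA : A k T H z ≤ 1) (hC0 : 0 ≤ C0)
    (hsum : ∀ V : Finset ℚ,
      (∀ v ∈ V, Kad k R v ∧ |v| ≤ ((P + 1 : ℕ) : ℚ) * (k : ℚ) ^ ((H : ℤ) + 1 + R)) →
      ∑ v ∈ V, z ^ len k T (v, (H : ℤ)) ≤ C0 * A k T H z)
    (X : Finset ℤ) (hX : ∀ x ∈ X, x ∈ Z0 k) (v1 v2 : ℤ → ℚ) (e : ℤ → ℤ)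
    (hv : ∀ x ∈ X, v1 x - v2 x = (k : ℚ) ^ e x * (x : ℚ) ∧
      clen k T ((x : ℚ), 0) = len k T (v1 x, (H : ℤ)) + len k T (v2 x, (H : ℤ)) ∧
      Kad k R (v1 x) ∧ Kad k R (v2 x) ∧
      |v1 x| ≤ P * (k : ℚ) ^ ((H : ℤ) + 1 + R) ∧ |v2 x| ≤ P * (k : ℚ) ^ ((H : ℤ) + 1 + R)) :
    (∑ x ∈ X, z ^ clen k T ((x : ℚ), (0 : ℤ))) * (1 + z ^ (2 * (2 * R * R + R))) ^ H ≤
      C0 ^ 2 := by
  classical
  have hk := hT.two_le
  set c : ℕ := 2 * R * R + R with hc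
  set S : Finset (ℤ × Finset ℕ) := X ×ˢ (range H).powerset with hS
  set V : Finset ℚ := S.image (fun p => v1 p.1 + (kJ k p.2 : ℚ)) ∪
    S.image (fun p => v2 p.1 + (kJ k p.2 : ℚ)) with hV
  -- the bounds on the elements of `V`
  have hbd : ∀ (v : ℚ) (J : Finset ℕ), J ⊆ range H → Kad k R v →
      |v| ≤ P * (k : ℚ) ^ ((H : ℤ) + 1 + R) →
      Kad k R (v + (kJ k J : ℚ)) ∧
        |v + (kJ k J : ℚ)| ≤ ((P + 1 : ℕ) : ℚ) * (k : ℚ) ^ ((H : ℤ) + 1 + R) := by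
    intro v J hJ hvk hva
    refine ⟨kad_add hvk (kad_mono hk (by positivity) (kad_nat _)), ?_⟩
    have h1 : (kJ k J : ℚ) ≤ (k : ℚ) ^ ((H : ℤ) + 1 + R) := by
      have h2 : (kJ k J : ℚ) ≤ ((k ^ H : ℕ) : ℚ) := by exact_mod_cast (kJ_lt hk hJ).le
      refine h2.trans ?_
      rw [Nat.cast_pow, ← zpow_natCast]
      exact zpow_le_zpow_right₀ (one_lt hk).le (by omega)
    have h3 : (0 : ℚ) ≤ (kJ k J : ℚ) := by positivity
    calc |v + (kJ k J : ℚ)| ≤ |v| + |(kJ k J : ℚ)| := abs_add_le _ _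
      _ ≤ P * (k : ℚ) ^ ((H : ℤ) + 1 + R) + (k : ℚ) ^ ((H : ℤ) + 1 + R) := by
          rw [abs_of_nonneg h3]; exact add_le_add hva h1
      _ = ((P + 1 : ℕ) : ℚ) * (k : ℚ) ^ ((H : ℤ) + 1 + R) := by push_cast; ring
  have hVb : ∀ v ∈ V, Kad k R v ∧ |v| ≤ ((P + 1 : ℕ) : ℚ) * (k : ℚ) ^ ((H : ℤ) + 1 + R) := by
    intro v hvV
    rw [hV, Finset.mem_union, Finset.mem_image, Finset.mem_image] at hvV
    rcases hvV with ⟨p, hp, rfl⟩ | ⟨p, hp, rfl⟩
    · rw [hS, Finset.mem_product, Finset.mem_powerset] at hp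
      obtain ⟨-, -, h1, -, h2, -⟩ := hv p.1 hp.1
      exact hbd _ _ hp.2 h1 h2
    · rw [hS, Finset.mem_product, Finset.mem_powerset] at hp
      obtain ⟨-, -, -, h1, -, h2⟩ := hv p.1 hp.1
      exact hbd _ _ hp.2 h1 h2
  have hsV : ∑ v ∈ V, z ^ len k T (v, (H : ℤ)) ≤ C0 := by
    refine (hsum V hVb).trans ?_
    calc C0 * A k T H z ≤ C0 * 1 := mul_le_mul_of_nonneg_left hA hC0
      _ = C0 := mul_one _
  have hsV0 : 0 ≤ ∑ v ∈ V, z ^ len k T (v, (H : ℤ)) :=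
    Finset.sum_nonneg (fun v _ => by positivity)
  -- the injective map
  set g : ℤ × Finset ℕ → ℚ × ℚ := fun p => (v1 p.1 + (kJ k p.2 : ℚ), v2 p.1 + (kJ k p.2 : ℚ))
    with hg
  have hginj : Set.InjOn g (S : Set (ℤ × Finset ℕ)) := by
    rintro ⟨x, J⟩ hx ⟨y, J'⟩ hy hxy
    rw [Finset.mem_coe, hS, Finset.mem_product] at hx hy
    simp only [hg, Prod.mk.injEq] at hxy
    obtain ⟨h1, h2⟩ := hxy
    have hx1 := (hv x hx.1).1
    have hy1 := (hv y hy.1).1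
    have h3 : (k : ℚ) ^ e x * (x : ℚ) = (k : ℚ) ^ e y * (y : ℚ) := by
      rw [← hx1, ← hy1]; linarith
    have h4 : (y : ℚ) = (k : ℚ) ^ (e x - e y) * (x : ℚ) := by
      have hke : (k : ℚ) ^ e y ≠ 0 := zpow_ne_zero _ (kne hk)
      rw [zpow_sub₀ (kne hk), div_mul_eq_mul_div, h3]
      field_simp
    have h5 : Cj k ((x : ℚ), 0) ((y : ℚ), 0) := by
      rw [h4]; exact cj_shift k _ _
    have h6 : x = y := (h24 k hk).2.1 x (hX x hx.1) y (hX y hy.1) h5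
    subst h6
    have h7 : (kJ k J : ℚ) = (kJ k J' : ℚ) := by linarith
    have h8 : J = J' := kJ_inj hk (by exact_mod_cast h7)
    rw [h8]
  have hgmem : ∀ p ∈ S, g p ∈ V ×ˢ V := by
    intro p hp
    rw [Finset.mem_product]
    exact ⟨Finset.mem_union_left _ (Finset.mem_image_of_mem _ hp),
      Finset.mem_union_right _ (Finset.mem_image_of_mem _ hp)⟩
  -- the computation
  have hpow : (1 + z ^ (2 * c)) ^ H = ∑ J ∈ (range H).powerset, (z ^ (2 * c)) ^ J.card := by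
    have := Finset.sum_pow_mul_eq_add_pow (z ^ (2 * c)) (1 : ℝ) (range H)
    rw [Finset.card_range] at this
    rw [add_comm, ← this]
    simp
  calc (∑ x ∈ X, z ^ clen k T ((x : ℚ), (0 : ℤ))) * (1 + z ^ (2 * c)) ^ H
      = ∑ p ∈ S, z ^ clen k T ((p.1 : ℚ), (0 : ℤ)) * (z ^ (2 * c)) ^ p.2.card := by
        rw [hpow, Finset.sum_mul_sum, hS, Finset.sum_product]
    _ ≤ ∑ p ∈ S, z ^ len k T ((g p).1, (H : ℤ)) * z ^ len k T ((g p).2, (H : ℤ)) := by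
        refine Finset.sum_le_sum (fun p hp => ?_)
        rw [hS, Finset.mem_product, Finset.mem_powerset] at hp
        obtain ⟨-, h1, h2, h3, -, -⟩ := hv p.1 hp.1
        have h4 := len_kJ h21 hT hB H (v1 p.1) (ka_of_kad hk h2) p.2 hp.2
        have h5 := len_kJ h21 hT hB H (v2 p.1) (ka_of_kad hk h3) p.2 hp.2
        rw [← pow_mul, ← pow_add, ← pow_add]
        refine pow_le_pow_of_le_one hz0.le hz1 ?_
        simp only [hg]
        rw [h1]
        have h6 : 2 * c * p.2.card = c * p.2.card + c * p.2.card := by ring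
        rw [h6]
        rw [← hc] at h4 h5
        omega
    _ = ∑ r ∈ S.image g, z ^ len k T (r.1, (H : ℤ)) * z ^ len k T (r.2, (H : ℤ)) := by
        rw [Finset.sum_image hginj]
    _ ≤ ∑ r ∈ V ×ˢ V, z ^ len k T (r.1, (H : ℤ)) * z ^ len k T (r.2, (H : ℤ)) := by
        refine Finset.sum_le_sum_of_subset_of_nonneg ?_ (fun r _ _ => by positivity)
        intro r hr
        obtain ⟨p, hp, rfl⟩ := Finset.mem_image.1 hr
        exact hgmem p hp
    _ = (∑ v ∈ V, z ^ len k T (v, (H : ℤ))) ^ 2 := by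
        rw [sq, Finset.sum_mul_sum, Finset.sum_product]
    _ ≤ C0 ^ 2 := pow_le_pow_left₀ hsV0 hsV 2

theorem m23 (h20 : S_peak) (h21 : S_insert) (h22 : S_sumA) (h24 : S_class0) : S_zero := by
  classical
  intro k T R K C P ρ hT hB hP hr
  have hρ := hr.pos
  have hρ1 := hr.lt_one
  obtain ⟨C0, hC0, hsum⟩ := h22 k T R (P + 1) (ρ / 2) hT (by positivity)
  have hpk := h20 k T R P hT hB hP
  choose! Hh w1 w2 ee hdat using hpk
  set c : ℕ := 2 * R * R + R with hc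
  set r : ℝ := (1 + (ρ / 2) ^ (2 * c))⁻¹ with hrr
  have hd : 0 < (ρ / 2) ^ (2 * c) := by positivity
  have hr0 : 0 < r := by rw [hrr]; positivity
  have hr1 : r < 1 := by
    rw [hrr]
    exact inv_lt_one_of_one_lt₀ (by linarith)
  refine ⟨C0 ^ 2 * (1 - r)⁻¹, ?_⟩
  intro z hz hz' X hX
  have hz0 : 0 < z := by linarith
  have hz1 : z ≤ 1 := by linarith
  -- one peak height
  have hone : ∀ H : ℕ, ∑ x ∈ X.filter (fun x : ℤ => Hh (x : ℚ) = H),
      z ^ clen k T ((x : ℚ), (0 : ℤ)) ≤ C0 ^ 2 * r ^ H := by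
    intro H
    have h1 := peak_sum (k := k) (T := T) (R := R) h21 h24 hT hB P C0 z hz0 hz1 H
      (A_le_one R K C ρ hB.one_le hr z hz0 hz' H) hC0
      (fun V hV => hsum H z hz hz1 V hV)
      (X.filter (fun x : ℤ => Hh (x : ℚ) = H))
      (fun x hx => hX x (Finset.mem_filter.1 hx).1)
      (fun x => w1 (x : ℚ)) (fun x => w2 (x : ℚ)) (fun x => ee (x : ℚ))
      (by
        intro x hx
        have h2 := hdat (x : ℚ) (ka_int x)
        rw [(Finset.mem_filter.1 hx).2] at h2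
        exact h2)
    rw [← hc] at h1
    have h3 : 0 < (1 + z ^ (2 * c)) ^ H := by positivity
    have h4 : ∑ x ∈ X.filter (fun x : ℤ => Hh (x : ℚ) = H),
        z ^ clen k T ((x : ℚ), (0 : ℤ)) ≤ C0 ^ 2 * ((1 + z ^ (2 * c)) ^ H)⁻¹ := by
      rw [← div_eq_mul_inv, le_div_iff₀ h3]
      exact h1
    refine h4.trans (mul_le_mul_of_nonneg_left ?_ (by positivity))
    rw [hrr, inv_pow]
    refine inv_anti₀ (by positivity) ?_
    refine pow_le_pow_left₀ (by positivity) ?_ H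
    have h5 : (ρ / 2) ^ (2 * c) ≤ z ^ (2 * c) := pow_le_pow_left₀ (by positivity) hz _
    linarith
  have hsplit : ∑ x ∈ X, z ^ clen k T ((x : ℚ), (0 : ℤ)) =
      ∑ H ∈ X.image (fun x : ℤ => Hh (x : ℚ)), ∑ x ∈ X.filter (fun x : ℤ => Hh (x : ℚ) = H),
        z ^ clen k T ((x : ℚ), (0 : ℤ)) := by
    rw [Finset.sum_fiberwise_of_maps_to]
    intro x hx
    exact Finset.mem_image_of_mem _ hx
  rw [hsplit]
  calc ∑ H ∈ X.image (fun x : ℤ => Hh (x : ℚ)), ∑ x ∈ X.filter (fun x : ℤ => Hh (x : ℚ) = H),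
        z ^ clen k T ((x : ℚ), (0 : ℤ))
      ≤ ∑ H ∈ X.image (fun x : ℤ => Hh (x : ℚ)), C0 ^ 2 * r ^ H :=
        Finset.sum_le_sum (fun H _ => hone H)
    _ = C0 ^ 2 * ∑ H ∈ X.image (fun x : ℤ => Hh (x : ℚ)), r ^ H := by rw [Finset.mul_sum]
    _ ≤ C0 ^ 2 * ∑' H : ℕ, r ^ H := by
        refine mul_le_mul_of_nonneg_left ?_ (by positivity)
        exact (summable_geometric_of_lt_one hr0.le hr1).sum_le_tsum _
          (fun H _ => by positivity)
    _ = C0 ^ 2 * (1 - r)⁻¹ := by rw [tsum_geometric_of_lt_one hr0.le hr1]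

end Pool.Agent.J6H98.CG23
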